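import Pool.Agent.Lib.MP_3fa020_gt.EMain
import Pool.Agent.Lib.MP_3fa020_gt.EStmt2

/-!
Uniform bound for the total variation of all Lipschitz-Killing curvatures under a lower bound for
the curvature operator and an upper diameter bound.
-/

namespace Pool.Agent.Lib.MP_3fa020_gt.Old.CurvOp

open Pool.Agent.AlStmt MeasureTheory

theorem result (n k : ℕ) (hn : 2 * k ≤ n) (D κ : ℝ) (hD : 0 < D) :
    ∃ C : ℝ, ∀ (A : ℕ) (M : Set (Eu A)), IsCompact M → IsSubmfd n M → DiamLE D M → CurvOpGE κ M →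
      IntegrableOn (lk k M) M (μHE[n]) ∧ ∫ x in M, |lk k M x| ∂(μHE[n]) ≤ C := by
  obtain ⟨C, hC⟩ := AlEmb.final_op (AlEmb.mainBound n k) hn D κ hD
  refine ⟨C, fun A M h1 h2 h3 h4 => hC A M h1 ⟨h2.1, fun x hx => ?_⟩ h3 h4⟩
  obtain ⟨U, Φ, a, b, ⟨c, d⟩, e⟩ := h2.2 x hx
  exact ⟨U, Φ, a, b, c, d, e⟩

end Pool.Agent.Lib.MP_3fa020_gt.Old.CurvOp
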